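import Pool.Agent.H78.STN.Stmts

set_option autoImplicit false

namespace Pool.STN

/-- auxiliary check -/
def lc0Go : ℕ → ℕ → ℕ → ℕ → ℕ → Bool
  | 0, _, _, _, _ => true
  | k + 1, N, l, a, b =>
    Nat.ble (l * a) b && lc0Go k (N + 1) (Nat.lcm l (N + 1)) (2 * a) (7 * b)

theorem lc0_succ (n : ℕ) : Nat.lcmUpto (n + 1) = Nat.lcm (Nat.lcmUpto n) (n + 1) := by
  unfold Nat.lcmUpto
  have h : Finset.Icc 1 (n + 1) = insert (n + 1) (Finset.Icc 1 n) := by
    ext x; simp only [Finset.mem_insert, Finset.mem_Icc]; omega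
  rw [h, Finset.lcm_insert]
  exact Nat.lcm_comm _ _

theorem lc0_go (k : ℕ) : ∀ N : ℕ, lc0Go k N (Nat.lcmUpto N) (2 ^ N) (7 ^ N) = true →
    ∀ j < k, Nat.lcmUpto (N + j) * 2 ^ (N + j) ≤ 7 ^ (N + j) := by
  induction k with
  | zero => intro N _ j hj; exact absurd hj (Nat.not_lt_zero j)
  | succ k ih =>
    intro N h j hj
    have h' : (Nat.ble (Nat.lcmUpto N * 2 ^ N) (7 ^ N) &&
      lc0Go k (N + 1) (Nat.lcm (Nat.lcmUpto N) (N + 1)) (2 * 2 ^ N) (7 * 7 ^ N)) = true := h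
    rw [Bool.and_eq_true] at h'
    obtain ⟨h1, h2⟩ := h'
    rw [← lc0_succ, ← Nat.pow_succ', ← Nat.pow_succ'] at h2
    cases j with
    | zero => exact Nat.le_of_ble_eq_true h1
    | succ j =>
      have := ih (N + 1) h2 j (by omega)
      have e : N + (j + 1) = N + 1 + j := by omega
      rw [e]; exact this

theorem LC0_thm : LC0Stmt := by
  intro N hN
  have h : lc0Go 1200 0 (Nat.lcmUpto 0) (2 ^ 0) (7 ^ 0) = true := by
    have e : Nat.lcmUpto 0 = 1 := by simp [Nat.lcmUpto]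
    rw [e]
    decide +kernel
  have := lc0_go 1200 0 h N hN
  rw [Nat.zero_add] at this
  exact this

end Pool.STN
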